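import Pool.Agent.W236.SC.QDefs

/-!
# SCQ-RIG : bricks whose dimension vector is a root are rigid
-/

set_option autoImplicit false

namespace Pool.Agent.W970.SC.Rig

open Pool.Agent.W236.Qv
open Module

variable {S : Type*} [Fintype S] [DecidableEq S] (G : Gph S)

open Classical in
/-- the numerical identity -/
lemma count (p : S → ℕ) (hp : G.Fr p) (d : S → ℕ) (h : G.qf (fun i => (d i : ℤ)) = 2) :
    ∑ i, d i * d i = (∑ a : {a : S × S // G.arr p a.1 a.2}, d a.1.1 * d a.1.2) + 1 := by
  have h1 : (∑ a : {a : S × S // G.arr p a.1 a.2}, (d a.1.1 : ℤ) * d a.1.2) =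
      ∑ i, ∑ j, if G.arr p i j then (d i : ℤ) * d j else 0 := by
    rw [← Fintype.sum_prod_type' (f := fun i j => if G.arr p i j then (d i : ℤ) * d j else 0)]
    rw [← Finset.sum_filter]
    exact (Finset.sum_subtype (Finset.univ.filter fun a : S × S => G.arr p a.1 a.2)
      (by intro x; simp) (fun a => (d a.1 : ℤ) * d a.2)).symm
  have h2 : ∑ i, ∑ j, (if G.adj i j then (d i : ℤ) * d j else 0) =
      (∑ i, ∑ j, if G.arr p i j then (d i : ℤ) * d j else 0) +
      ∑ i, ∑ j, if G.arr p j i then (d i : ℤ) * d j else 0 := by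
    rw [← Finset.sum_add_distrib]
    refine Finset.sum_congr rfl fun i _ => ?_
    rw [← Finset.sum_add_distrib]
    refine Finset.sum_congr rfl fun j _ => ?_
    unfold Gph.arr
    rw [G.symm j i]
    by_cases ha : G.adj i j = true
    · have hne := hp i j ha
      rcases lt_or_gt_of_ne hne with hlt | hlt
      · simp [ha, hlt, hlt.not_gt]
      · simp [ha, hlt, hlt.not_gt]
    · simp [ha]
  have h3 : ∑ i, ∑ j, (if G.arr p j i then (d i : ℤ) * d j else 0) =
      ∑ i, ∑ j, if G.arr p i j then (d i : ℤ) * d j else 0 := by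
    rw [Finset.sum_comm]
    refine Finset.sum_congr rfl fun i _ => Finset.sum_congr rfl fun j _ => ?_
    rw [mul_comm]
  have h4 : G.qf (fun i => (d i : ℤ)) = 2 * ∑ i, (d i : ℤ) * d i -
      ∑ i, ∑ j, (if G.adj i j then (d i : ℤ) * d j else 0) := by
    unfold Gph.qf
    rw [Finset.mul_sum, ← Finset.sum_sub_distrib]
    refine Finset.sum_congr rfl fun i _ => ?_
    rw [mul_sub, Finset.mul_sum]
    congr 1
    · ring
    · refine Finset.sum_congr rfl fun j _ => ?_
      split_ifs <;> simp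
  rw [h4, h2, h3, ← h1] at h
  have h5 : ((∑ i, d i * d i : ℕ) : ℤ) =
      (((∑ a : {a : S × S // G.arr p a.1 a.2}, d a.1.1 * d a.1.2) + 1 : ℕ) : ℤ) := by
    push_cast
    linarith
  exact_mod_cast h5

/-- the map `h ↦ (h_j f_ij - f_ij h_i)` -/
noncomputable def delta (p : S → ℕ) (M : Rep S) :
    (∀ i, (Fin (M.d i) → ℚ) →ₗ[ℚ] (Fin (M.d i) → ℚ)) →ₗ[ℚ]
    (∀ a : {a : S × S // G.arr p a.1 a.2}, (Fin (M.d a.1.1) → ℚ) →ₗ[ℚ] (Fin (M.d a.1.2) → ℚ)) where
  toFun h := fun a => (h a.1.2) ∘ₗ (M.f a.1.1 a.1.2) - (M.f a.1.1 a.1.2) ∘ₗ (h a.1.1)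
  map_add' h h' := by
    funext a
    simp only [Pi.add_apply, LinearMap.add_comp, LinearMap.comp_add]
    abel
  map_smul' c h := by
    funext a
    simp only [Pi.smul_apply, LinearMap.smul_comp, LinearMap.comp_smul, RingHom.id_apply,
      smul_sub]

open Classical in
theorem rigidOf : S_RigidOf G := by
  intro p M hp hbrick hq E
  obtain ⟨⟨i0, hi0⟩, hend⟩ := hbrick
  have hker : finrank ℚ (LinearMap.ker (delta G p M)) ≤ 1 := by
    have hle : LinearMap.ker (delta G p M) ≤ Submodule.span ℚ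
        {(fun i => (LinearMap.id : (Fin (M.d i) → ℚ) →ₗ[ℚ] (Fin (M.d i) → ℚ)))} := by
      intro h hh
      rw [LinearMap.mem_ker] at hh
      have hhom : IsHom G p M M h := by
        intro i j hij
        have := congrFun hh ⟨(i, j), hij⟩
        simp only [delta, LinearMap.coe_mk, AddHom.coe_mk, Pi.zero_apply] at this
        exact (sub_eq_zero.1 this).symm
      obtain ⟨c, hc⟩ := hend h hhom
      rw [Submodule.mem_span_singleton]
      exact ⟨c, by funext i; rw [hc i]; rfl⟩
    refine (Submodule.finrank_mono hle).trans ?_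
    refine (finrank_span_le_card _).trans ?_
    simp
  have hsrc : finrank ℚ (∀ i, (Fin (M.d i) → ℚ) →ₗ[ℚ] (Fin (M.d i) → ℚ)) =
      ∑ i, M.d i * M.d i := by
    rw [Module.finrank_pi_fintype]
    refine Finset.sum_congr rfl fun i _ => ?_
    rw [Module.finrank_linearMap, Module.finrank_fin_fun]
  have htgt : finrank ℚ (∀ a : {a : S × S // G.arr p a.1 a.2},
      (Fin (M.d a.1.1) → ℚ) →ₗ[ℚ] (Fin (M.d a.1.2) → ℚ)) =
      ∑ a : {a : S × S // G.arr p a.1 a.2}, M.d a.1.1 * M.d a.1.2 := by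
    rw [Module.finrank_pi_fintype]
    refine Finset.sum_congr rfl fun i _ => ?_
    rw [Module.finrank_linearMap, Module.finrank_fin_fun, Module.finrank_fin_fun]
  have hrn := LinearMap.finrank_range_add_finrank_ker (delta G p M)
  have hcount := count G p hp M.d hq
  have hrange : LinearMap.range (delta G p M) = ⊤ := by
    apply Submodule.eq_top_of_finrank_eq
    apply le_antisymm (Submodule.finrank_le _)
    rw [htgt]
    rw [hsrc] at hrn
    omega
  have hsurj := LinearMap.range_eq_top.1 hrange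
  obtain ⟨h, hh⟩ := hsurj (fun a => E a.1.1 a.1.2)
  refine ⟨h, fun i j hij => ?_⟩
  have := congrFun hh ⟨(i, j), hij⟩
  simp only [delta, LinearMap.coe_mk, AddHom.coe_mk] at this
  exact this.symm

end Pool.Agent.W970.SC.Rig
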