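import Pool.Agent.W236.SC.LDefs

/-!
# SCL-HA : Hasse diagram of the quotient of a finite lattice; Newman's lemma
-/

set_option autoImplicit false

namespace Pool.Agent.W970.SC.HA

open Pool.Agent.W236.Lt

universe u v

section

variable {P : Type u} [PartialOrder P] {κ : Type v} {K : P → κ}

lemma isLUB_of_le {x y : P} (h : x ≤ y) : IsLUB {x, y} y := by
  constructor
  · rintro z hz
    rcases hz with rfl | hz
    · exact h
    · rw [Set.mem_singleton_iff] at hz
      exact hz.le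
  · intro z hz
    exact hz (Set.mem_insert_of_mem _ (Set.mem_singleton _))

lemma isGLB_of_le {x y : P} (h : x ≤ y) : IsGLB {y, x} x := by
  constructor
  · rintro z hz
    rcases hz with rfl | hz
    · exact h
    · rw [Set.mem_singleton_iff] at hz
      exact hz.ge
  · intro z hz
    exact hz (Set.mem_insert_of_mem _ (Set.mem_singleton _))

lemma qle_of_le {x y : P} (h : x ≤ y) : qle K (K x) (K y) :=
  ⟨x, y, y, rfl, rfl, isLUB_of_le h, rfl⟩

lemma qle_all (hK : LatCongr K) {x y j : P} (h : qle K (K x) (K y)) (hj : IsLUB {x, y} j) :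
    K j = K y := by
  obtain ⟨x', y', j', hx, hy, hj', hKj⟩ := h
  obtain ⟨j'', hj''⟩ := hK.join x y'
  have h1 : K j'' = K j' := hK.joinC x x' y' j'' j' hx.symm hj'' hj'
  have h2 : K j = K j'' := by
    apply hK.joinC y y' x j j'' hy.symm
    · rwa [Set.pair_comm]
    · rwa [Set.pair_comm]
  rw [h2, h1, hKj]

end

theorem ha : S_HA.{u, v} := by
  intro P _ _ κ K hK a b ha hb
  constructor
  · rintro ⟨hq, hne, hc⟩
    refine ⟨hne, ?_⟩
    obtain ⟨x, rfl⟩ := ha
    obtain ⟨y, rfl⟩ := hb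
    obtain ⟨j, hj⟩ := hK.join x y
    have hKj : K j = K y := qle_all hK hq hj
    have hxj : x ≤ j := hj.1 (Set.mem_insert _ _)
    obtain ⟨z, hz, hzmax⟩ : ∃ z, (x ≤ z ∧ z ≤ j ∧ K z = K x) ∧
        ∀ z', (x ≤ z' ∧ z' ≤ j ∧ K z' = K x) → z ≤ z' → z' ≤ z := by
      have hne' : {z : P | x ≤ z ∧ z ≤ j ∧ K z = K x}.Nonempty := ⟨x, le_rfl, hxj, rfl⟩
      obtain ⟨z, hz⟩ := (Set.toFinite {z : P | x ≤ z ∧ z ≤ j ∧ K z = K x}).exists_maximal hne'
      exact ⟨z, hz.1, fun z' hz' hle => hz.2 hz' hle⟩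
    have hzj : z < j := by
      refine lt_of_le_of_ne hz.2.1 ?_
      rintro rfl
      exact hne (hz.2.2.symm.trans hKj)
    obtain ⟨z', hzz', hz'j⟩ := exists_covBy_le_of_lt hzj
    have hKz' : K z' ≠ K x := by
      intro h
      have := hzmax z' ⟨hz.1.trans hzz'.le, hz'j, h⟩ hzz'.le
      exact absurd this hzz'.lt.not_ge
    have q1 : qle K (K x) (K z') := by
      rw [← hz.2.2]
      exact qle_of_le hzz'.le
    have q2 : qle K (K z') (K y) := by
      rw [← hKj]
      exact qle_of_le hz'j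
    refine ⟨z, z', hzz', hz.2.2, ?_⟩
    rcases hc (K z') ⟨z', rfl⟩ q1 q2 with h | h
    · exact absurd h hKz'
    · exact h
  · rintro ⟨hne, x, y, hxy, rfl, rfl⟩
    refine ⟨qle_of_le hxy.le, hne, ?_⟩
    rintro c ⟨z, rfl⟩ h1 h2
    obtain ⟨w, hw⟩ := hK.join x z
    have hKw : K w = K z := qle_all hK h1 hw
    rw [← hKw] at h2 ⊢
    obtain ⟨j, hj⟩ := hK.join w y
    have hKj : K j = K y := qle_all hK h2 hj
    obtain ⟨m, hm⟩ := hK.meet y w
    have hwj : w ≤ j := hj.1 (Set.mem_insert _ _)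
    have hKm : K m = K w := hK.meetC y j w m w hKj.symm hm (isGLB_of_le hwj)
    have hxm : x ≤ m := by
      apply hm.2
      rintro t ht
      rcases ht with rfl | ht
      · exact hxy.le
      · rw [Set.mem_singleton_iff] at ht
        subst ht
        exact hw.1 (Set.mem_insert _ _)
    have hmy : m ≤ y := hm.1 (Set.mem_insert _ _)
    rcases hxy.eq_or_eq hxm hmy with h | h
    · left
      rw [← hKm, h]
    · right
      rw [← hKm, h]

theorem newman : S_Newman.{u} := by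
  intro P _ _ R hR hloc x
  induction x using WellFoundedGT.induction with
  | ind x ih =>
    intro y z hy hz
    rcases hy.cases_head with rfl | ⟨y1, hxy1, hy1⟩
    · exact ⟨z, hz, Relation.ReflTransGen.refl⟩
    rcases hz.cases_head with rfl | ⟨z1, hxz1, hz1⟩
    · exact ⟨y, Relation.ReflTransGen.refl, hy⟩
    obtain ⟨w1, h1, h2⟩ := hloc x y1 z1 hxy1 hxz1
    obtain ⟨t, ht1, ht2⟩ := ih y1 (hR _ _ hxy1) y w1 hy1 h1
    obtain ⟨s, hs1, hs2⟩ := ih z1 (hR _ _ hxz1) z t hz1 (h2.trans ht2)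
    exact ⟨s, ht1.trans hs2, hs1⟩

end Pool.Agent.W970.SC.HA
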