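import Pool.Agent.W236.SC.QDefs

/-!
# SCQ-CP : existence and dimension of the kernel reflection
-/

set_option autoImplicit false

namespace Pool.Agent.W970.SC.Cp

open Pool.Agent.W236.Qv
open Module

variable {S : Type*} [Fintype S] [DecidableEq S] (G : Gph S)

/-- neighbours of `r` -/
abbrev Nb (r : S) : Type _ := {t : S // G.adj r t = true}

/-- the map from the sum over the neighbours -/
noncomputable def Phi (r : S) (V : Rep S) :
    (∀ t : Nb G r, Fin (V.d t.1) → ℚ) →ₗ[ℚ] (Fin (V.d r) → ℚ) :=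
  ∑ t : Nb G r, (V.f t.1 r) ∘ₗ LinearMap.proj t

omit [DecidableEq S] in
lemma Phi_apply (r : S) (V : Rep S) (y : ∀ t : Nb G r, Fin (V.d t.1) → ℚ) :
    Phi G r V y = ∑ t : Nb G r, V.f t.1 r (y t) := by
  unfold Phi
  simp

omit [DecidableEq S] in
lemma sum_eq (r : S) (V : Rep S) (y : ∀ t, Fin (V.d t) → ℚ) :
    (∑ t, if G.adj r t then V.f t r (y t) else 0) = Phi G r V (fun t => y t.1) := by
  rw [Phi_apply, ← Finset.sum_filter]
  exact Finset.sum_subtype (Finset.univ.filter fun t => G.adj r t = true) (by intro x; simp)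
    (fun t => V.f t r (y t))

omit [DecidableEq S] in
lemma sum_dim (r : S) (V : Rep S) :
    (∑ t, if G.adj r t then V.d t else 0) = ∑ t : Nb G r, V.d t.1 := by
  rw [← Finset.sum_filter]
  exact Finset.sum_subtype (Finset.univ.filter fun t => G.adj r t = true) (by intro x; simp)
    (fun t => V.d t)

omit [DecidableEq S] in
lemma ne_of_adj {r t : S} (h : G.adj r t = true) : t ≠ r := by
  rintro rfl
  rw [G.irr] at h
  exact Bool.false_ne_true h

theorem cpEx : S_CpEx G := by
  intro p r V
  classical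
  let m : ℕ := finrank ℚ (LinearMap.ker (Phi G r V))
  let d' : S → ℕ := Function.update V.d r m
  have hd' : ∀ i, i ≠ r → d' i = V.d i := fun i hi => Function.update_of_ne hi _ _
  have hdr : ∀ i, i = r → d' i = m := by
    rintro i rfl
    exact Function.update_self _ _ _
  let eps : ∀ i, i ≠ r → ((Fin (V.d i) → ℚ) ≃ₗ[ℚ] (Fin (d' i) → ℚ)) := fun i hi =>
    LinearEquiv.ofFinrankEq _ _ (by rw [finrank_fin_fun, finrank_fin_fun, hd' i hi])
  let ka : ∀ i, i = r → ((Fin (d' i) → ℚ) ≃ₗ[ℚ] LinearMap.ker (Phi G r V)) := fun i hi =>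
    LinearEquiv.ofFinrankEq _ _ (by rw [finrank_fin_fun, hdr i hi])
  let e : ∀ i, (Fin (V.d i) → ℚ) →ₗ[ℚ] (Fin (d' i) → ℚ) := fun i =>
    if h : i = r then 0 else (eps i h).toLinearMap
  let f' : ∀ i j : S, (Fin (d' i) → ℚ) →ₗ[ℚ] (Fin (d' j) → ℚ) := fun i j =>
    if hi : i = r then
      (if hj : G.adj r j = true then
        (eps j (ne_of_adj G hj)).toLinearMap ∘ₗ (LinearMap.proj (⟨j, hj⟩ : Nb G r)) ∘ₗ
          (LinearMap.ker (Phi G r V)).subtype ∘ₗ (ka i hi).toLinearMap
      else 0)
    else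
      (if hj : j = r then 0 else
        (eps j hj).toLinearMap ∘ₗ (V.f i j) ∘ₗ (eps i hi).symm.toLinearMap)
  have he : ∀ i (h : i ≠ r), e i = (eps i h).toLinearMap := fun i h => dif_neg h
  have hf1 : ∀ j (hj : G.adj r j = true) (x : Fin (d' r) → ℚ), f' r j x =
      eps j (ne_of_adj G hj) ((ka r rfl x).1 ⟨j, hj⟩) := by
    intro j hj x
    have : f' r j = (eps j (ne_of_adj G hj)).toLinearMap ∘ₗ
        (LinearMap.proj (⟨j, hj⟩ : Nb G r)) ∘ₗ
          (LinearMap.ker (Phi G r V)).subtype ∘ₗ (ka r rfl).toLinearMap := by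
      show (if hi : r = r then _ else _) = _
      rw [dif_pos rfl, dif_pos hj]
    rw [this]
    rfl
  have hf2 : ∀ i j (hi : i ≠ r) (hj : j ≠ r), f' i j =
      (eps j hj).toLinearMap ∘ₗ (V.f i j) ∘ₗ (eps i hi).symm.toLinearMap := by
    intro i j hi hj
    show (if hi : i = r then _ else _) = _
    rw [dif_neg hi, dif_neg hj]
  refine ⟨⟨d', f'⟩, e, ⟨⟨?_, ?_⟩, ?_, ?_⟩⟩
  · intro i hi
    rw [he i hi]
    exact (eps i hi).bijective
  · intro i j hi hj _
    show f' i j ∘ₗ e i = e j ∘ₗ V.f i j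
    rw [hf2 i j hi hj, he i hi, he j hj]
    refine LinearMap.ext fun x => ?_
    simp
  · intro x hx
    have h1 : ka r rfl x = 0 := by
      apply Subtype.ext
      funext t
      have := hx t.1 t.2
      rw [show (Rep.mk d' f').f r t.1 x = f' r t.1 x from rfl, hf1 t.1 t.2 x] at this
      exact (eps t.1 (ne_of_adj G t.2)).map_eq_zero_iff.1 this
    exact (ka r rfl).map_eq_zero_iff.1 h1
  · intro y
    rw [sum_eq]
    constructor
    · intro hy
      refine ⟨(ka r rfl).symm ⟨fun t => y t.1, hy⟩, fun t ht => ?_⟩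
      show f' r t _ = e t (y t)
      rw [hf1 t ht, he t (ne_of_adj G ht), LinearEquiv.apply_symm_apply]
      rfl
    · rintro ⟨x, hx⟩
      have h1 : (fun t : Nb G r => y t.1) = (ka r rfl x).1 := by
        funext t
        have := hx t.1 t.2
        rw [show (Rep.mk d' f').f r t.1 x = f' r t.1 x from rfl, hf1 t.1 t.2 x,
          he t.1 (ne_of_adj G t.2)] at this
        exact ((eps t.1 (ne_of_adj G t.2)).injective this).symm
      rw [h1]
      exact (ka r rfl x).2

theorem cpDim : S_CpDim G := by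
  intro p r V V' e h
  classical
  have hd : ∀ i, i ≠ r → V'.d i = V.d i := by
    intro i hi
    have := (LinearEquiv.ofBijective (e i) (h.out.bij i hi)).finrank_eq
    rw [finrank_fin_fun, finrank_fin_fun] at this
    exact this.symm
  refine ⟨hd, V.d r - finrank ℚ (LinearMap.range (Phi G r V)), ?_, ?_, ?_⟩
  · -- the kernel
    let E : ∀ t : Nb G r, (Fin (V.d t.1) → ℚ) ≃ₗ[ℚ] (Fin (V'.d t.1) → ℚ) := fun t =>
      LinearEquiv.ofBijective (e t.1) (h.out.bij t.1 (ne_of_adj G t.2))
    have hE : ∀ (t : Nb G r) (z : Fin (V.d t.1) → ℚ), E t z = e t.1 z := fun t z => rfl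
    let Psi : (Fin (V'.d r) → ℚ) →ₗ[ℚ] (∀ t : Nb G r, Fin (V.d t.1) → ℚ) :=
      LinearMap.pi fun t => (E t).symm.toLinearMap ∘ₗ V'.f r t.1
    have hPsi : ∀ x (t : Nb G r), Psi x t = (E t).symm (V'.f r t.1 x) := fun x t => rfl
    have hinj : Function.Injective Psi := by
      rw [← LinearMap.ker_eq_bot, LinearMap.ker_eq_bot']
      intro x hx
      apply h.inj x
      intro t ht
      have h1 := congrFun hx ⟨t, ht⟩
      rw [hPsi] at h1
      exact (E ⟨t, ht⟩).symm.map_eq_zero_iff.1 h1
    have hran : LinearMap.range Psi = LinearMap.ker (Phi G r V) := by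
      ext w
      rw [LinearMap.mem_range, LinearMap.mem_ker]
      constructor
      · rintro ⟨x, rfl⟩
        let y : ∀ t, Fin (V.d t) → ℚ := fun t =>
          if ht : G.adj r t = true then Psi x ⟨t, ht⟩ else 0
        have hy : ∀ t : Nb G r, y t.1 = Psi x t := fun t => dif_pos t.2
        have h1 := (h.ex y).2 ⟨x, fun t ht => ?_⟩
        · rw [sum_eq] at h1
          have h2 : (fun t : Nb G r => y t.1) = Psi x := funext hy
          rwa [h2] at h1
        · have h3 := hy ⟨t, ht⟩
          simp only at h3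
          rw [h3, hPsi, ← hE ⟨t, ht⟩, LinearEquiv.apply_symm_apply]
      · intro hw
        let y : ∀ t, Fin (V.d t) → ℚ := fun t =>
          if ht : G.adj r t = true then w ⟨t, ht⟩ else 0
        have hy : ∀ t : Nb G r, y t.1 = w t := fun t => dif_pos t.2
        have h2 : (fun t : Nb G r => y t.1) = w := funext hy
        obtain ⟨x, hx⟩ := (h.ex y).1 (by rw [sum_eq, h2]; exact hw)
        refine ⟨x, ?_⟩
        funext t
        rw [hPsi, hx t.1 t.2, ← hE t, LinearEquiv.symm_apply_apply, hy]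
    have h1 : finrank ℚ (LinearMap.ker (Phi G r V)) = V'.d r := by
      rw [← hran, LinearMap.finrank_range_of_inj hinj, finrank_fin_fun]
    have h2 := LinearMap.finrank_range_add_finrank_ker (Phi G r V)
    rw [h1, finrank_pi_fintype] at h2
    simp only [finrank_fin_fun] at h2
    rw [sum_dim]
    have h3 : finrank ℚ (LinearMap.range (Phi G r V)) ≤ V.d r := by
      have := Submodule.finrank_le (LinearMap.range (Phi G r V))
      rwa [finrank_fin_fun] at this
    omega
  · intro hs
    have htop : LinearMap.range (Phi G r V) = ⊤ := by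
      rw [LinearMap.range_eq_top]
      intro z
      obtain ⟨y, hy⟩ := hs z
      exact ⟨fun t => y t.1, by rw [← sum_eq]; exact hy⟩
    rw [htop, finrank_top, finrank_fin_fun, Nat.sub_self]
  · intro hc
    have hlt : LinearMap.range (Phi G r V) < ⊤ := by
      rw [lt_top_iff_ne_top]
      intro htop
      apply hc
      rw [htop, finrank_top, finrank_fin_fun, Nat.sub_self]
    obtain ⟨l, hl, hker⟩ := Submodule.exists_le_ker_of_lt_top _ hlt
    refine ⟨l, hl, fun t ht => ?_⟩
    refine LinearMap.ext fun z => ?_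
    rw [LinearMap.comp_apply, LinearMap.zero_apply]
    have : V.f t r z ∈ LinearMap.range (Phi G r V) := by
      refine ⟨Pi.single ⟨t, ht⟩ z, ?_⟩
      rw [Phi_apply]
      rw [Finset.sum_eq_single (⟨t, ht⟩ : Nb G r)]
      · rw [Pi.single_eq_same]
      · intro b _ hb
        rw [Pi.single_eq_of_ne hb, map_zero]
      · intro hb
        exact absurd (Finset.mem_univ _) hb
    exact hker this

end Pool.Agent.W970.SC.Cp
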